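import Pool.Agent.Q289.SF.Lower
import Pool.Agent.Q289.SF.Seg
import Pool.Agent.Q289.SF.Touch
import Pool.Agent.Q289.SF.Profile
import Pool.Agent.Q289.SF.Weighted

/-!
MP_a4170f_an, negative answer on the unit disc: for every length budget `L > 0` and every
sufficiently small stiffness `m > 0` there is an admissible measure with support in the open disc
which beats, by a fixed amount, every admissible measure whose support meets the boundary circle;
hence the support of every maximizer is contained in the open disc.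
-/

open MeasureTheory Set Metric Filter Topology

namespace Pool.Agent.Results.MP_a4170f_an.InteriorStiffeners

open Pool.Agent.Q289.SF

/-- A maximizer of `λ₁` in the class `𝒜ᶜ_L` of the domain `Ω`. -/
def IsMaximizer (Ω : Set ℂ) (m L : ℝ) (μ : Measure ℂ) : Prop :=
  Adm Ω L μ ∧ ∀ ν : Measure ℂ, Adm Ω L ν → lam Ω m ν ≤ lam Ω m μ

theorem support_sub {L : ℝ} {μ : Measure ℂ} (hμ : Adm disc L μ)
    (h : ¬ (μ.support ∩ frontier disc).Nonempty) : μ.support ⊆ disc := by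
  have h1 : μ.support ⊆ closure disc := by
    apply Measure.support_subset_of_isClosed isClosed_closure
    rw [mem_ae_iff]
    exact hμ.carried
  intro z hz
  have h2 : z ∉ frontier disc := fun hf => h ⟨z, hz, hf⟩
  have h3 := h1 hz
  rw [closure_eq_self_union_frontier] at h3
  exact h3.resolve_right h2

theorem result (L : ℝ) (hL : 0 < L) : ∃ m₀ : ℝ, 0 < m₀ ∧ ∀ m : ℝ, 0 < m → m < m₀ →
    (∃ μ₀ : Measure ℂ, Adm disc L μ₀ ∧ μ₀.support ⊆ disc ∧ ∃ c : ℝ, 0 < c ∧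
      ∀ μ : Measure ℂ, Adm disc L μ → (μ.support ∩ frontier disc).Nonempty →
        lam disc m μ + c ≤ lam disc m μ₀) ∧
    ∀ μ : Measure ℂ, IsMaximizer disc m L μ → μ.support ⊆ disc := by
  obtain ⟨φ, τ, hφ, hτ, hode, hφ0, hφτ, hpos, hneg⟩ := profile
  have hφd : Differentiable ℝ φ := hφ.differentiable (by simp)
  have hφ1 := contDiff_deriv_top hφ
  have hφ1d : Differentiable ℝ (deriv φ) := hφ1.differentiable (by simp)
  have hφ1c : Continuous (deriv φ) := hφ1.continuous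
  obtain ⟨h, hh⟩ : ∃ h : ℝ → ℝ, h = fun r => 2 * τ * r * deriv φ (τ * r ^ 2) := ⟨_, rfl⟩
  have hhv : ∀ r, h r = 2 * τ * r * deriv φ (τ * r ^ 2) := fun r => by rw [hh]
  have hhc : Continuous h := by rw [hh]; fun_prop
  have hh0 : h 0 = 0 := by rw [hhv]; simp
  have hhneg : ∀ r, 0 < r → r ≤ 1 → h r < 0 := by
    intro r h0 h1
    rw [hhv]
    have h2 : τ * r ^ 2 ∈ Icc 0 τ := by
      constructor
      · positivity
      · have : r ^ 2 ≤ 1 := by nlinarith
        nlinarith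
    have h3 := hneg _ h2
    have h4 : 0 < 2 * τ * r := by positivity
    exact mul_neg_of_pos_of_neg h4 h3
  have hPv : ∀ z, ‖fderiv ℝ (U φ τ) z‖ ^ 2 = h ‖z‖ ^ 2 := by
    intro z
    rw [norm_fderiv_U hφd, hhv]; ring
  -- derivative of `h²` at `1`
  have hder : HasDerivAt (fun r => h r ^ 2) (-(8 * τ ^ 2 * deriv φ τ ^ 2)) 1 := by
    have h1 : HasDerivAt (fun r : ℝ => τ * r ^ 2) (τ * (2 * 1)) 1 := by
      have := (hasDerivAt_pow 2 (1 : ℝ)).const_mul τ
      simpa using this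
    have h2 : HasDerivAt (fun r : ℝ => deriv φ (τ * r ^ 2))
        (deriv (deriv φ) (τ * 1 ^ 2) * (τ * (2 * 1))) 1 :=
      HasDerivAt.comp (h₂ := deriv φ) (h := fun r : ℝ => τ * r ^ 2) 1
        (hφ1d (τ * 1 ^ 2)).hasDerivAt h1
    have h3 : HasDerivAt (fun r : ℝ => 2 * τ * r) (2 * τ * 1) 1 :=
      (hasDerivAt_id (1 : ℝ)).const_mul (2 * τ)
    obtain ⟨H, hH⟩ : ∃ H, H = 2 * τ * 1 * deriv φ (τ * 1 ^ 2) +
        2 * τ * 1 * (deriv (deriv φ) (τ * 1 ^ 2) * (τ * (2 * 1))) := ⟨_, rfl⟩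
    have h4 : HasDerivAt (fun r : ℝ => 2 * τ * r * deriv φ (τ * r ^ 2)) H 1 := by
      rw [hH]
      exact h3.mul h2
    rw [← hh] at h4
    have h5 : HasDerivAt (fun r => h r ^ 2) (((2 : ℕ) : ℝ) * h 1 ^ (2 - 1) * H) 1 := h4.pow 2
    have h6 := hode τ
    rw [hφτ, add_zero] at h6
    have h7 : τ * deriv (deriv φ) τ = -deriv φ τ := by linarith
    have h8 : -(8 * τ ^ 2 * deriv φ τ ^ 2) = ((2 : ℕ) : ℝ) * h 1 ^ (2 - 1) * H := by
      rw [hhv, hH]
      norm_num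
      have h9 : 2 * (2 * τ * deriv φ τ) * (2 * τ * deriv φ τ +
          2 * τ * (deriv (deriv φ) τ * (τ * 2))) = 8 * τ ^ 2 * deriv φ τ ^ 2 +
          16 * τ ^ 2 * deriv φ τ * (τ * deriv (deriv φ) τ) := by ring
      rw [h9, h7]
      ring
    rw [h8]
    exact h5
  have hφτ' : deriv φ τ < 0 := hneg τ ⟨hτ.le, le_rfl⟩
  have hdneg : -(8 * τ ^ 2 * deriv φ τ ^ 2) < 0 := by
    have h9 : 0 < deriv φ τ ^ 2 := by
      have := mul_pos_of_neg_of_neg hφτ' hφτ'
      nlinarith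
    have : 0 < 8 * τ ^ 2 * deriv φ τ ^ 2 := by positivity
    linarith
  -- the maximum of `h²`
  obtain ⟨rs, hrs, hmax⟩ := (isCompact_Icc (a := (0 : ℝ)) (b := 1)).exists_isMaxOn
    ⟨0, le_rfl, zero_le_one⟩ (hhc.pow 2).continuousOn
  obtain ⟨M, hM⟩ : ∃ M, M = h rs ^ 2 := ⟨_, rfl⟩
  have hMmax : ∀ r ∈ Icc (0 : ℝ) 1, h r ^ 2 ≤ M := fun r hr => by
    rw [hM]; exact hmax hr
  have h1M : h 1 ^ 2 < M := by
    have hs := hasDerivAt_iff_tendsto_slope.1 hder
    have hs2 : Tendsto (slope (fun r => h r ^ 2) 1) (𝓝[<] 1)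
        (𝓝 (-(8 * τ ^ 2 * deriv φ τ ^ 2))) :=
      hs.mono_left (nhdsWithin_mono _ fun x hx => (ne_of_lt hx))
    have e1 := hs2.eventually (gt_mem_nhds hdneg)
    have e2 : ∀ᶠ r in 𝓝[<] (1 : ℝ), 0 < r :=
      nhdsWithin_le_nhds (lt_mem_nhds one_pos)
    have e3 : ∀ᶠ r in 𝓝[<] (1 : ℝ), r < 1 := self_mem_nhdsWithin
    obtain ⟨r, hr1, hr2, hr3⟩ := (e1.and (e2.and e3)).exists
    have h2 : h 1 ^ 2 < h r ^ 2 := by
      rw [slope_def_field] at hr1
      have h3 : r - 1 < 0 := by linarith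
      by_contra hcon
      have h4 : 0 ≤ (h r ^ 2 - h 1 ^ 2) / (r - 1) :=
        div_nonneg_of_nonpos (by linarith) h3.le
      linarith
    exact h2.trans_le (hMmax r ⟨hr2.le, hr3.le⟩)
  have hM0 : 0 < M := lt_of_le_of_lt (sq_nonneg _) h1M
  have hrs1 : rs < 1 := by
    rcases hrs.2.eq_or_lt with h2 | h2
    · exfalso; rw [h2] at hM; linarith
    · exact h2
  have hrs0 : 0 < rs := by
    rcases hrs.1.eq_or_lt with h2 | h2
    · exfalso
      rw [← h2, hh0] at hM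
      simp at hM; linarith
    · exact h2
  obtain ⟨κ, hκ⟩ : ∃ κ, κ = (M - h 1 ^ 2) / 2 := ⟨_, rfl⟩
  have hκ0 : 0 < κ := by rw [hκ]; linarith
  have hκM : κ ≤ M := by rw [hκ]; nlinarith [sq_nonneg (h 1)]
  -- the outer annulus
  obtain ⟨r1, hr10, hr11, hr1⟩ : ∃ r1 : ℝ, 0 < r1 ∧ r1 < 1 ∧
      ∀ r ∈ Icc r1 1, h r ^ 2 ≤ M - κ := by
    have h2 : h 1 ^ 2 < M - κ := by rw [hκ]; linarith
    have h3 : ∀ᶠ r in 𝓝 (1 : ℝ), h r ^ 2 < M - κ :=
      (hhc.pow 2).continuousAt.eventually (gt_mem_nhds h2)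
    obtain ⟨d, hd, hd2⟩ := Metric.eventually_nhds_iff.1 h3
    refine ⟨1 - min (d / 2) (1 / 2), ?_, ?_, ?_⟩
    · have := min_le_right (d / 2) (1 / 2 : ℝ)
      linarith
    · have : 0 < min (d / 2) (1 / 2 : ℝ) := by positivity
      linarith
    · intro r hr
      apply le_of_lt
      apply hd2
      rw [Real.dist_eq, abs_sub_comm, abs_of_nonneg (by linarith [hr.2])]
      have := min_le_left (d / 2) (1 / 2 : ℝ)
      linarith [hr.1]
  obtain ⟨c0, hc0⟩ : ∃ c0, c0 = κ * min L (1 - r1) := ⟨_, rfl⟩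
  have hmin : 0 < min L (1 - r1) := lt_min hL (by linarith)
  have hc00 : 0 < c0 := by rw [hc0]; positivity
  have hc0L : c0 ≤ M * L := by
    rw [hc0]
    have := min_le_left L (1 - r1)
    gcongr
  -- the segment
  obtain ⟨ε, hε⟩ : ∃ ε, ε = c0 / (4 * L) := ⟨_, rfl⟩
  have hε0 : 0 < ε := by rw [hε]; positivity
  have hεM : ε < M := by
    rw [hε, div_lt_iff₀ (by positivity)]
    nlinarith
  have hLε : L * ε = c0 / 4 := by rw [hε]; field_simp
  obtain ⟨a, b, ha, hab, hb, hbL, hseg1⟩ : ∃ a b : ℝ, 0 < a ∧ a < b ∧ b < 1 ∧ b - a ≤ L ∧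
      ∀ t ∈ Icc a b, M - ε ≤ h t ^ 2 := by
    have h2 : M - ε < h rs ^ 2 := by rw [← hM]; linarith
    have h3 : ∀ᶠ r in 𝓝 rs, M - ε < h r ^ 2 :=
      (hhc.pow 2).continuousAt.eventually (lt_mem_nhds h2)
    obtain ⟨d, hd, hd2⟩ := Metric.eventually_nhds_iff.1 h3
    obtain ⟨e, he⟩ : ∃ e, e = min (min (d / 2) (L / 2)) (min (rs / 2) ((1 - rs) / 2)) := ⟨_, rfl⟩
    have hrs' : 0 < (1 - rs) / 2 := by linarith
    have he0 : 0 < e := by rw [he]; positivity
    have he1 : e ≤ d / 2 := by rw [he]; exact (min_le_left _ _).trans (min_le_left _ _)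
    have he2 : e ≤ L / 2 := by rw [he]; exact (min_le_left _ _).trans (min_le_right _ _)
    have he3 : e ≤ rs / 2 := by rw [he]; exact (min_le_right _ _).trans (min_le_left _ _)
    have he4 : e ≤ (1 - rs) / 2 := by rw [he]; exact (min_le_right _ _).trans (min_le_right _ _)
    refine ⟨rs - e, rs + e, by linarith, by linarith, by linarith, by linarith, ?_⟩
    intro t ht
    apply le_of_lt
    apply hd2
    rw [Real.dist_eq]
    have : |t - rs| ≤ e := by
      rw [abs_le]; constructor <;> linarith [ht.1, ht.2]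
    linarith
  obtain ⟨g, hg⟩ : ∃ g, g = Real.sqrt (M - ε) := ⟨_, rfl⟩
  have hg0 : 0 < g := by rw [hg]; exact Real.sqrt_pos.2 (by linarith)
  have hg2 : g ^ 2 = M - ε := by rw [hg]; exact Real.sq_sqrt (by linarith)
  have hfg : ∀ t ∈ Icc a b, 2 * τ * t * deriv φ (τ * t ^ 2) ≤ -g := by
    intro t ht
    rw [← hhv]
    have h2 := hseg1 t ht
    rw [← hg2] at h2
    have h3 := hhneg t (ha.trans_le ht.1) (ht.2.trans hb.le)
    nlinarith
  obtain ⟨hAdm, hsupp, hint⟩ := seg a b L ha hab hb hbL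
  have hba : 0 < b - a := sub_pos.2 hab
  obtain ⟨m₀, hm₀, hlow⟩ := lower weighted hφ hτ hode hφτ hpos hneg ha hab hb
    (θ := L / (b - a)) (by positivity) hg0 hfg hint (δ := c0 / 4) (by positivity)
  have hN := N_pos hφ hτ hpos
  refine ⟨m₀, hm₀, fun m hm hmm => ?_⟩
  have hmain : ∃ μ₀ : Measure ℂ, Adm disc L μ₀ ∧ μ₀.support ⊆ disc ∧ ∃ c : ℝ, 0 < c ∧
      ∀ μ : Measure ℂ, Adm disc L μ → (μ.support ∩ frontier disc).Nonempty →
        lam disc m μ + c ≤ lam disc m μ₀ := by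
    refine ⟨segMeasure a b (L / (b - a)), hAdm, hsupp,
      m * (c0 / 2) / ∫ z in disc, U φ τ z ^ 2, by positivity, ?_⟩
    intro μ hμ hμt
    have hfin : IsFiniteMeasure μ := ⟨lt_of_le_of_lt hμ.mass ENNReal.ofReal_lt_top⟩
    have hup := upper φ τ hφ hτ hode hφτ hpos m μ hm hfin hμ.carried
    have hto := touch (fun z => ‖fderiv ℝ (U φ τ) z‖ ^ 2) M κ r1 L
      (by
        have : Continuous (fderiv ℝ (U φ τ)) := (U_contDiff hφ τ).continuous_fderiv (by simp)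
        fun_prop)
      (fun z => by positivity) hL hκ0 hκM hr10 hr11
      (fun z hz => by
        rw [hPv]
        exact hMmax _ ⟨norm_nonneg z, by simpa using hz⟩)
      (fun z hz hrz => by
        rw [hPv]
        exact hr1 _ ⟨hrz, by simpa using hz⟩) μ hμ hμt
    rw [← hc0] at hto
    have hlo := hlow m hm hmm
    have h2 : L / (b - a) * (b - a) * g ^ 2 - c0 / 4 = M * L - c0 / 2 := by
      rw [div_mul_cancel₀ _ hba.ne', hg2, mul_sub, hLε]; ring
    rw [h2] at hlo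
    have h3 : m * (∫ z, ‖fderiv ℝ (U φ τ) z‖ ^ 2 ∂μ) / (∫ z in disc, U φ τ z ^ 2) ≤
        m * (M * L - c0) / ∫ z in disc, U φ τ z ^ 2 := by gcongr
    have h4 : m * (M * L - c0) / (∫ z in disc, U φ τ z ^ 2) +
        m * (c0 / 2) / (∫ z in disc, U φ τ z ^ 2) =
        m * (M * L - c0 / 2) / ∫ z in disc, U φ τ z ^ 2 := by
      rw [← add_div]
      congr 1
      ring
    linarith
  refine ⟨hmain, fun μ hμ => ?_⟩
  apply support_sub hμ.1
  intro ht
  obtain ⟨μ₀, h1, _, c, hc, h2⟩ := hmain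
  have h3 := h2 μ hμ.1 ht
  have h4 := hμ.2 μ₀ h1
  linarith

end Pool.Agent.Results.MP_a4170f_an.InteriorStiffeners
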